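import Pool.Agent.Lib.MP_12b00b_co.Net

/-! Gammoids representable over a fixed finite field have linear arc-complexity. -/

namespace Pool.Agent.Results.MP_12b00b_co.LinearArcs

open Pool.Agent.Lib.MP_12b00b_co

/-- a path of the digraph with arc set `A`: a nonempty sequence of distinct vertices,
consecutive ones joined by arcs -/
def IsPath {V : Type} (A : Finset (V × V)) (p : List V) : Prop :=
  p ≠ [] ∧ p.Nodup ∧ p.IsChain fun a b => (a, b) ∈ A

/-- there is a routing from `X` to `Y` -/
def Routable {V : Type} (A : Finset (V × V)) (X Y : Set V) : Prop :=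
  ∃ R : Set (List V), (∀ p ∈ R, IsPath A p) ∧ (∀ p ∈ R, ∀ q ∈ R, p ≠ q → p.Disjoint q) ∧
    (∀ x ∈ X, ∃ p ∈ R, p.head? = some x) ∧ ∀ p ∈ R, ∃ y ∈ Y, p.getLast? = some y

/-- `M = Γ(D, T, E)`, where `D = (V, A)` and `E` is identified with a subset of `V` by `ι` -/
def Represents {E V : Type} (M : Matroid E) (ι : E ↪ V) (A : Finset (V × V)) (T : Set V) : Prop :=
  ∀ X : Set E, M.Indep X ↔ Routable A (ι '' X) T

/-- targets are elements of `E` and sinks, the other elements of `E` are sources -/
def IsStandard {E V : Type} (ι : E ↪ V) (A : Finset (V × V)) (T : Set V) : Prop :=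
  T ⊆ Set.range ι ∧ (∀ t ∈ T, ∀ v, (t, v) ∉ A) ∧ ∀ e, ι e ∉ T → ∀ v, (v, ι e) ∉ A

/-- gammoids -/
def IsGammoid {E : Type} (M : Matroid E) : Prop :=
  ∃ (V : Type) (_ : Finite V) (ι : E ↪ V) (A : Finset (V × V)) (T : Set V), Represents M ι A T

/-- arc-complexity: least number of arcs of a standard representation -/
noncomputable def arcC {E : Type} (M : Matroid E) : ℕ∞ :=
  sInf {n | ∃ (V : Type) (_ : Finite V) (ι : E ↪ V) (A : Finset (V × V)) (T : Set V),
    Represents M ι A T ∧ IsStandard ι A T ∧ n = (A.card : ℕ∞)}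

/-- representability over a field -/
def Representable (F : Type) [Field F] {E : Type} (M : Matroid E) : Prop :=
  ∃ (m : ℕ) (v : E → Fin m → F), ∀ X : Set E, M.Indep X ↔ LinearIndepOn F v X

open Finset

theorem meets {V : Type} {adj : V → V → Prop} {X Y R Γ : Finset V} (h : Cut adj X Y R Γ)
    (p : List V) : ∀ x y, p.IsChain adj → p.head? = some x → p.getLast? = some y →
      (x ∈ R ∨ x ∈ Γ) → y ∉ R → ∃ v ∈ p, v ∈ Γ := by
  induction p with
  | nil => simp
  | cons a l ih =>
    intro x y h1 h2 h3 h4 h5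
    obtain rfl : a = x := by simpa using h2
    rcases h4 with h4 | h4
    · rcases l with _ | ⟨b, l⟩
      · obtain rfl : a = y := by simpa using h3
        exact absurd h4 h5
      · rw [List.isChain_cons_cons] at h1
        obtain ⟨v, v1, v2⟩ := ih b y h1.2 rfl (by simpa using h3) (h.step a h4 b h1.1) h5
        exact ⟨v, List.mem_cons_of_mem _ v1, v2⟩
    · exact ⟨a, List.mem_cons_self, h4⟩

theorem routable_iff {V : Type} [Fintype V] [DecidableEq V] (A : Finset (V × V))
    (X Y : Finset V) : Routable A X Y ↔ cut (fun a b => (a, b) ∈ A) X Y = #X := by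
  constructor
  · rintro ⟨P, p1, p2, p3, p4⟩
    obtain ⟨R, Γ, h, hc⟩ := exists_cut (fun a b => (a, b) ∈ A) X Y
    refine le_antisymm (cut_le_card _ _ _) (hc ▸ ?_)
    choose! p q1 q2 using p3
    have ex : ∀ x ∈ X, ∃ v ∈ p x, v ∈ Γ := fun x hx => by
      obtain ⟨y, y1, y2⟩ := p4 _ (q1 x hx)
      exact meets h _ x y (p1 _ (q1 x hx)).2.2 (q2 x hx) y2 (h.src x hx) (h.snk y y1)
    choose! g g1 g2 using ex
    refine card_le_card_of_injOn g g2 fun x hx x' hx' hg => ?_
    have : p x = p x' := by_contra fun hn =>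
      p2 _ (q1 x hx) _ (q1 x' hx') hn (g1 x hx) (hg ▸ g1 x' hx')
    exact Option.some.inj ((q2 x hx).symm.trans (this ▸ q2 x' hx'))
  · intro h
    obtain ⟨f, f1, f2⟩ := mat_iff.2 h
    have key : ∀ x ∈ X, ∀ x' ∈ X, ∀ i j, (∀ t < i, f^[t] x ∉ Y) → (∀ t < j, f^[t] x' ∉ Y) →
        f^[i] x = f^[j] x' → i = j ∧ x = x' := by
      intro x hx x' hx' i
      induction i with
      | zero =>
        rintro (_ | j) - h2 h3
        · exact ⟨rfl, h3⟩
        · rw [Function.iterate_succ_apply'] at h3
          exact absurd (h3 ▸ hx) (f2 _ (h2 j (by omega))).1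
      | succ i ih =>
        rintro (_ | j) h1 h2 h3
        · rw [Function.iterate_succ_apply'] at h3
          exact absurd (h3 ▸ hx') (f2 _ (h1 i (by omega))).1
        · rw [Function.iterate_succ_apply', Function.iterate_succ_apply'] at h3
          have := ih j (fun t ht => h1 t (by omega)) (fun t ht => h2 t (by omega))
            (f1 _ (h1 i (by omega)) _ (h2 j (by omega)) h3)
          exact ⟨by omega, this.2⟩
    have ex : ∀ x ∈ X, ∃ n, f^[n] x ∈ Y ∧ ∀ t < n, f^[t] x ∉ Y := fun x hx => by
      have : ∃ n, f^[n] x ∈ Y := by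
        by_contra hn
        rw [not_exists] at hn
        exact not_injective_infinite_finite (fun i : ℕ => f^[i] x) fun i j hij =>
          (key x hx x hx i j (fun t _ => hn t) (fun t _ => hn t) hij).1
      exact ⟨Nat.find this, Nat.find_spec this, fun t ht => Nat.find_min this ht⟩
    choose! n n1 n2 using ex
    refine ⟨(fun x => (List.range (n x + 1)).map fun i => f^[i] x) '' X, ?_, ?_,
      fun x hx => ⟨_, ⟨x, hx, rfl⟩, by simp [List.range_succ_eq_map]⟩, ?_⟩
    · rintro _ ⟨x, hx, rfl⟩
      refine ⟨by simp, List.Nodup.map_on (fun i hi j hj hij => ?_) List.nodup_range, ?_⟩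
      · rw [List.mem_range] at hi hj
        exact (key x hx x hx i j (fun t ht => n2 x hx t (by omega))
          (fun t ht => n2 x hx t (by omega)) hij).1
      · rw [List.isChain_map, List.isChain_range_succ]
        intro m hm
        rw [Function.iterate_succ_apply']
        refine (f2 _ (n2 x hx m hm)).2.resolve_left fun hh => ?_
        have := (key x hx x hx (m + 1) m (fun t ht => n2 x hx t (by omega))
          (fun t ht => n2 x hx t (by omega)) (by rwa [Function.iterate_succ_apply'])).1
        omega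
    · rintro _ ⟨x, hx, rfl⟩ _ ⟨x', hx', rfl⟩ hne v h1 h2
      simp only [List.mem_map, List.mem_range] at h1 h2
      obtain ⟨i, hi, rfl⟩ := h1
      obtain ⟨j, hj, h2⟩ := h2
      exact hne ((key x hx x' hx' i j (fun t ht => n2 x hx t (by omega))
        (fun t ht => n2 x' hx' t (by omega)) h2.symm).2 ▸ rfl)
    · rintro _ ⟨x, hx, rfl⟩
      exact ⟨_, n1 x hx, by simp [List.range_succ]⟩

theorem exists_op {F : Type} [Field F] {E : Type} [Fintype E] [DecidableEq E] {m : ℕ}
    (v : E → Fin m → F) : ∃ O : OP F E, ∀ X : Finset E, O.r X = #X ↔ LinearIndepOn F v X := by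
  let W := LinearMap.ker (Fintype.linearCombination F v)
  refine ⟨⟨perp W, W, fun u hu w hw => by rw [dotProduct_comm]; exact mem_perp.1 hu w hw,
    by rw [add_comm]; exact finrank_perp W⟩, fun X => ?_⟩
  rw [← OP.indep_iff, linearIndepOn_finset_iff]
  constructor
  · intro h f hf i hi
    have := h (fun e => if e ∈ X then f e else 0) (by
      simp only [W, LinearMap.mem_ker, Fintype.linearCombination_apply, ite_smul, zero_smul]
      rwa [Fintype.sum_ite_mem]) fun e he => if_neg he
    simpa [hi] using congrFun this i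
  · intro h w hw h0
    have h1 : ∑ i, w i • v i = 0 := hw
    rw [← sum_subset (subset_univ X) fun e _ he => by rw [h0 e he, zero_smul]] at h1
    funext e
    by_cases he : e ∈ X
    exacts [h w h1 e he, h0 e he]

theorem result (F : Type) [Field F] [Finite F] :
    ∃ c : ℕ, ∀ (E : Type) [Fintype E] (M : Matroid E), M.E = Set.univ → IsGammoid M →
      Representable F M → arcC M ≤ (c * Fintype.card E : ℕ) := by
  classical
  have := Fintype.ofFinite F
  obtain ⟨γ, hγ⟩ := OP.few_arcs F
  refine ⟨γ, fun E _ M _ ⟨V, _, ι, A, T, hM⟩ ⟨m, v, hv⟩ => ?_⟩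
  have := Fintype.ofFinite V
  obtain ⟨O, hO⟩ := exists_op v
  have ind : ∀ X : Finset E, M.Indep X ↔ O.r X = #X := fun X => (hv X).trans (hO X).symm
  have rk : ∀ {W : Type} (ι : E ↪ W) (adj : W → W → Prop) (T : Finset W),
      RK fun X : Finset E => cut adj (X.map ι) T := fun ι adj T =>
    ⟨fun X Y h => (rk_cut adj T).mono _ _ (map_subset_map.2 h),
      fun X Y => by simpa only [map_union, Finset.map_inter] using (rk_cut adj T).submod _ _,
      fun X e => by simpa only [map_insert] using (rk_cut adj T).unit _ _⟩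
  obtain ⟨B, ι', A', a1, a2, a3, a4⟩ := hγ E O V ι (fun a b => (a, b) ∈ A) T.toFinset
    (RK.eq_of_indep (rk _ _ _) (by simp [cut_empty]) O.rk_r O.r_empty fun X => by
      rw [← ind, hM, ← coe_map, ← T.coe_toFinset, routable_iff, card_map, toFinset_coe])
  refine le_trans (sInf_le ⟨V ⊕ E, inferInstance, ι', A', B.map ι', fun X => ?_,
    ⟨fun t ht => ?_, a1, fun e he => a2 _ (mem_map_of_mem _ (mem_compl.2 fun hh =>
      he (mem_map_of_mem _ hh)))⟩, rfl⟩) (by exact_mod_cast a4)
  · rw [← X.coe_toFinset, ind, ← coe_map, routable_iff, a3, card_map]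
  · obtain ⟨e, -, rfl⟩ := mem_map.1 ht
    exact ⟨e, rfl⟩

end Pool.Agent.Results.MP_12b00b_co.LinearArcs
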